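import Pool.Agent.R327.VisD

set_option autoImplicit false

/-!
# Lattice points visible along a polynomial: the density is one

`F ∈ ℤ[x]` has positive leading coefficient and at least two distinct complex roots. Then the
density of the lattice points visible along `F` exists and equals `1`: this answers Q1 of
MP_543a09_nt in the affirmative.

Proof. For large `a`, if `(a, h)` is invisible then there are `1 ≤ c < e` and `u` with `e F(u) = c F(a)`,
`e ∣ F(a)` and `e ∣ h`. The number of the points with a given `e` is at most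
`(N/e) #{a ≤ N : e ∣ F(a)} ≤ N² w(e)` with a convergent sum `∑ w(e)`, and for fixed `e` and `c` the
set of the solutions `a` of `e F(u) = c F(a)` has density zero, because
`u = (c/e)^(1/d) a + κ + o(1)`: a gap which occurs infinitely often gives an affine map of ratio less
than one which maps the roots of `F` to roots of `F`.
-/

namespace Pool.Agent.Results.MP_543a09_nt.DensityOne

open Filter Topology Polynomial Finset Pool.Agent.R327.Vis

/-- The point `(a, h)` is visible along `F`: there is a rational `t` with `h = t F(a)` such that `a`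
is the smallest positive integer `u` for which `t F(u)` is a positive integer. -/
def Visible (F : ℤ[X]) (a h : ℕ) : Prop :=
  ∃ t : ℚ, (h : ℚ) = t * ((F.eval (a : ℤ) : ℤ) : ℚ) ∧
    IsLeast {u : ℕ | 0 < u ∧ ∃ m : ℕ, 0 < m ∧ t * ((F.eval (u : ℤ) : ℤ) : ℚ) = m} a

/-- The structure of the invisible points. -/
theorem invisible (F : ℤ[X]) (a h : ℕ) (ha : 1 ≤ a) (hh : 1 ≤ h) (hpos : 0 < F.eval (a : ℤ))
    (hlt : ∀ u : ℕ, u < a → F.eval (u : ℤ) < F.eval (a : ℤ)) (hinv : ¬ Visible F a h) :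
    ∃ e c u : ℕ, 1 ≤ c ∧ c < e ∧ e ∣ h ∧ (e : ℤ) ∣ F.eval (a : ℤ) ∧
      (e : ℤ) * F.eval (u : ℤ) = c * F.eval (a : ℤ) := by
  have hFa : ((F.eval (a : ℤ) : ℤ) : ℚ) ≠ 0 := by exact_mod_cast hpos.ne'
  have h1 : ∃ u : ℕ, 0 < u ∧ u < a ∧ ∃ m : ℕ, 0 < m ∧
      (h : ℚ) / ((F.eval (a : ℤ) : ℤ) : ℚ) * ((F.eval (u : ℤ) : ℤ) : ℚ) = m := by
    by_contra hno
    push Not at hno
    apply hinv
    refine ⟨(h : ℚ) / ((F.eval (a : ℤ) : ℤ) : ℚ), ?_, ⟨?_, ?_⟩⟩
    · field_simp
    · exact ⟨ha, h, hh, by field_simp⟩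
    · rintro u ⟨hu, m, hm, hum⟩
      by_contra hua
      exact hno u hu (by omega) m hm hum
  obtain ⟨u, hu, hua, m, hm, hum⟩ := h1
  have h2 : (h : ℤ) * F.eval (u : ℤ) = m * F.eval (a : ℤ) := by
    have : (h : ℚ) * ((F.eval (u : ℤ) : ℤ) : ℚ) = m * ((F.eval (a : ℤ) : ℤ) : ℚ) := by
      rw [← hum]
      field_simp
    exact_mod_cast this
  have hh0 : (0 : ℤ) < h := by exact_mod_cast hh
  have hm0 : (0 : ℤ) < m := by exact_mod_cast hm
  have hmh : m < h := by
    have h3 := hlt u hua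
    have h4 : (m : ℤ) * F.eval (a : ℤ) < h * F.eval (a : ℤ) := by
      rw [← h2]
      exact mul_lt_mul_of_pos_left h3 hh0
    have h5 := lt_of_mul_lt_mul_right h4 hpos.le
    exact_mod_cast h5
  obtain ⟨g, m', h', hg, hcop, hm', hh'⟩ : ∃ g m' h' : ℕ, 0 < g ∧ Nat.Coprime m' h' ∧
      m = m' * g ∧ h = h' * g := by
    obtain ⟨m', h', hc, e1, e2⟩ := Nat.exists_coprime m h
    exact ⟨Nat.gcd m h, m', h', Nat.gcd_pos_of_pos_left _ hm, hc, e1, e2⟩
  have hgz : (g : ℤ) ≠ 0 := by exact_mod_cast hg.ne'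
  have h3 : (h' : ℤ) * F.eval (u : ℤ) = m' * F.eval (a : ℤ) := by
    rw [hm', hh'] at h2
    push_cast at h2
    have h4 : (g : ℤ) * ((h' : ℤ) * F.eval (u : ℤ)) = g * (m' * F.eval (a : ℤ)) := by
      linear_combination h2
    exact mul_left_cancel₀ hgz h4
  refine ⟨h', m', u, ?_, ?_, ?_, ?_, h3⟩
  · rcases Nat.eq_zero_or_pos m' with h0 | h0
    · rw [h0] at hm'
      omega
    · exact h0
  · rw [hm', hh'] at hmh
    exact lt_of_mul_lt_mul_right hmh (Nat.zero_le g)
  · rw [hh']
    exact Nat.dvd_mul_right _ _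
  · have hcop' : IsCoprime (h' : ℤ) (m' : ℤ) := Nat.isCoprime_iff_coprime.2 hcop.symm
    exact hcop'.dvd_of_dvd_mul_left (Dvd.intro _ h3)

/-- **Main theorem.** -/
theorem result (F : ℤ[X]) (hlc : 0 < F.leadingCoeff)
    (hroots : ∃ z w : ℂ, z ≠ w ∧ aeval z F = 0 ∧ aeval w F = 0) :
    Tendsto (fun N : ℕ => (Set.ncard {p : ℕ × ℕ | (1 ≤ p.1 ∧ p.1 ≤ N) ∧ (1 ≤ p.2 ∧ p.2 ≤ N) ∧
      Visible F p.1 p.2} : ℝ) / (N : ℝ) ^ 2) atTop (𝓝 1) := by
  classical
  -- the degree
  have hd : 2 ≤ F.natDegree := by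
    obtain ⟨z, w, hzw, hz, hw⟩ := hroots
    set G : ℂ[X] := F.map (Int.castRingHom ℂ) with hG
    have hG0 : G ≠ 0 := by
      rw [hG, Ne, Polynomial.map_eq_zero_iff (Int.cast_injective (α := ℂ))]
      rintro rfl
      simp at hlc
    have hev : ∀ z : ℂ, G.eval z = aeval z F := by
      intro z
      rw [hG, eval_map, aeval_def]
      rfl
    have h1 : ({z, w} : Finset ℂ) ⊆ G.roots.toFinset := by
      intro y hy
      rw [Finset.mem_insert, Finset.mem_singleton] at hy
      rw [Multiset.mem_toFinset, mem_roots hG0, IsRoot.def, hev]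
      rcases hy with rfl | rfl
      · exact hz
      · exact hw
    have h2 := card_le_card h1
    rw [card_pair hzw] at h2
    exact h2.trans ((Multiset.toFinset_card_le _).trans ((card_roots' G).trans natDegree_map_le))
  obtain ⟨a0, ha0⟩ := mono F hlc hd
  obtain ⟨w, hws, hw0, hw⟩ := weights F hlc
  -- the sets
  set A : ℕ → Set ℕ := fun e => {a : ℕ | ∃ c : ℕ, 1 ≤ c ∧ c < e ∧
    ∃ u : ℕ, (e : ℤ) * F.eval (u : ℤ) = c * F.eval (a : ℤ)} with hA
  set V : ℕ → Finset (ℕ × ℕ) := fun N => (Icc 1 N ×ˢ Icc 1 N).filter (fun p => Visible F p.1 p.2)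
    with hV
  set I : ℕ → Finset (ℕ × ℕ) := fun N => (Icc 1 N ×ˢ Icc 1 N).filter (fun p => ¬ Visible F p.1 p.2)
    with hI
  have hVI : ∀ N, (V N).card + (I N).card = N * N := by
    intro N
    have h := card_filter_add_card_filter_not (s := Icc 1 N ×ˢ Icc 1 N)
      (fun p : ℕ × ℕ => Visible F p.1 p.2)
    rw [card_product, Nat.card_Icc, Nat.add_sub_cancel] at h
    exact h
  -- density zero for fixed e
  have hdens : ∀ e : ℕ, Tendsto (fun N : ℕ => (((Icc 1 N).filter (fun a => a ∈ A e)).card : ℝ) / N)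
      atTop (𝓝 0) := by
    intro e
    have h1 : Tendsto (fun N : ℕ => ∑ c ∈ Finset.Ico 1 e, (((Icc 1 N).filter (fun a => a ∈
        {a : ℕ | ∃ u : ℕ, (e : ℤ) * F.eval (u : ℤ) = c * F.eval (a : ℤ)})).card : ℝ) / N)
        atTop (𝓝 0) := by
      have h2 : (0 : ℝ) = ∑ c ∈ Finset.Ico 1 e, (0 : ℝ) := by simp
      rw [h2]
      apply tendsto_finsetSum
      intro c hc
      rw [Finset.mem_Ico] at hc
      apply density_zero
      intro g hg
      exact gap_finite F hlc (by omega) hroots e c g hc.1 hc.2 hg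
    refine squeeze_zero (fun N => by positivity) ?_ h1
    intro N
    rw [← Finset.sum_div]
    apply div_le_div_of_nonneg_right _ (Nat.cast_nonneg N)
    rw [← Nat.cast_sum]
    have h3 : ((Icc 1 N).filter (fun a => a ∈ A e)) ⊆ (Finset.Ico 1 e).biUnion (fun c =>
        (Icc 1 N).filter (fun a => a ∈
          {a : ℕ | ∃ u : ℕ, (e : ℤ) * F.eval (u : ℤ) = c * F.eval (a : ℤ)})) := by
      intro a ha
      rw [mem_filter] at ha
      obtain ⟨haN, c, hc1, hc2, hu⟩ := ha
      rw [mem_biUnion]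
      exact ⟨c, Finset.mem_Ico.2 ⟨hc1, hc2⟩, mem_filter.2 ⟨haN, hu⟩⟩
    exact_mod_cast (card_le_card h3).trans card_biUnion_le
  -- the invisible points
  have hIcard : ∀ N, (I N).card ≤ a0 * N + ∑ e ∈ Finset.Icc 1 N,
      ((Icc 1 N).filter (fun a : ℕ => (e : ℤ) ∣ F.eval (a : ℤ) ∧ a ∈ A e)).card * (N / e) := by
    intro N
    have hsub : I N ⊆ (range a0 ×ˢ Icc 1 N) ∪ (Finset.Icc 1 N).biUnion (fun e =>
        ((Icc 1 N).filter (fun a : ℕ => (e : ℤ) ∣ F.eval (a : ℤ) ∧ a ∈ A e)) ×ˢ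
          ((Icc 1 N).filter (fun h => e ∣ h))) := by
      rintro ⟨a, h⟩ hp
      rw [hI] at hp
      simp only [mem_filter, mem_product, mem_Icc] at hp
      obtain ⟨⟨⟨ha1, ha2⟩, hh1, hh2⟩, hinv⟩ := hp
      rw [mem_union]
      by_cases haa : a < a0
      · left
        rw [mem_product, mem_range, mem_Icc]
        exact ⟨haa, hh1, hh2⟩
      · right
        obtain ⟨hpos, hlt⟩ := ha0 a (by omega)
        obtain ⟨e, c, u, hc1, hce, heh, heF, heq⟩ := invisible F a h ha1 hh1 hpos hlt hinv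
        rw [mem_biUnion]
        refine ⟨e, mem_Icc.2 ⟨by omega, (Nat.le_of_dvd hh1 heh).trans hh2⟩, ?_⟩
        rw [mem_product, mem_filter, mem_filter, mem_Icc, mem_Icc]
        exact ⟨⟨⟨ha1, ha2⟩, heF, c, hc1, hce, u, heq⟩, ⟨hh1, hh2⟩, heh⟩
    refine (card_le_card hsub).trans ((card_union_le _ _).trans ?_)
    apply Nat.add_le_add
    · rw [card_product, card_range, Nat.card_Icc, Nat.add_sub_cancel]
    · refine card_biUnion_le.trans (sum_le_sum ?_)
      intro e _
      rw [card_product]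
      apply Nat.mul_le_mul_left
      have h5 := Nat.Ioc_filter_dvd_card_eq_div N e
      have h6 : (Icc 1 N).filter (fun h => e ∣ h) = (Ioc 0 N).filter (fun h => e ∣ h) := by
        ext x
        simp only [mem_filter, mem_Icc, mem_Ioc]
        constructor
        · rintro ⟨⟨h1, h2⟩, h3⟩
          exact ⟨⟨h1, h2⟩, h3⟩
        · rintro ⟨⟨h1, h2⟩, h3⟩
          exact ⟨⟨h1, h2⟩, h3⟩
      rw [h6, h5]
  -- the limit for the invisible points
  have hlimI : Tendsto (fun N : ℕ => ((I N).card : ℝ) / (N : ℝ) ^ 2) atTop (𝓝 0) := by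
    rw [Metric.tendsto_atTop]
    intro ε hε
    obtain ⟨s, hs⟩ := summable_iff_vanishing_norm.1 hws (ε / 4) (by positivity)
    have h1 : Tendsto (fun N : ℕ => (a0 : ℝ) / N +
        ∑ e ∈ s, (((Icc 1 N).filter (fun a => a ∈ A e)).card : ℝ) / N) atTop (𝓝 0) := by
      have h2 : (0 : ℝ) = 0 + ∑ e ∈ s, (0 : ℝ) := by simp
      rw [h2]
      apply Tendsto.add
      · exact tendsto_const_div_atTop_nhds_zero_nat _
      · apply tendsto_finsetSum
        intro e _
        exact hdens e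
    obtain ⟨N1, hN1⟩ := Metric.tendsto_atTop.1 h1 (ε / 4) (by positivity)
    refine ⟨max N1 1, ?_⟩
    intro N hN
    have hNN1 : N1 ≤ N := (le_max_left _ _).trans hN
    have hNp : 1 ≤ N := (le_max_right _ _).trans hN
    have hN0 : (0 : ℝ) < N := by exact_mod_cast hNp
    have h3 := hN1 N hNN1
    rw [Real.dist_eq, sub_zero] at h3
    have h3' := (le_abs_self _).trans_lt h3
    rw [Real.dist_eq, sub_zero, abs_of_nonneg (by positivity), div_lt_iff₀ (by positivity)]
    have h4 : ((I N).card : ℝ) ≤ a0 * N + ∑ e ∈ Finset.Icc 1 N,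
        (((Icc 1 N).filter (fun a : ℕ => (e : ℤ) ∣ F.eval (a : ℤ) ∧ a ∈ A e)).card : ℝ) *
          ((N : ℝ) / e) := by
      have h5 : ((I N).card : ℝ) ≤ ((a0 * N + ∑ e ∈ Finset.Icc 1 N,
        ((Icc 1 N).filter (fun a : ℕ => (e : ℤ) ∣ F.eval (a : ℤ) ∧ a ∈ A e)).card * (N / e) : ℕ) : ℝ) := by
        exact_mod_cast hIcard N
      refine h5.trans ?_
      push_cast
      apply add_le_add_right
      apply sum_le_sum
      intro e _
      apply mul_le_mul_of_nonneg_left _ (Nat.cast_nonneg _)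
      exact Nat.cast_div_le
    have h5 : ∑ e ∈ Finset.Icc 1 N,
        (((Icc 1 N).filter (fun a : ℕ => (e : ℤ) ∣ F.eval (a : ℤ) ∧ a ∈ A e)).card : ℝ) *
          ((N : ℝ) / e) ≤ (∑ e ∈ s, (((Icc 1 N).filter (fun a => a ∈ A e)).card : ℝ)) * N +
            (N : ℝ) ^ 2 * (ε / 4) := by
      rw [← sum_filter_add_sum_filter_not (Finset.Icc 1 N) (fun e => e ∈ s)]
      apply add_le_add
      · rw [sum_mul]
        refine le_trans (sum_le_sum (g := fun e =>
          (((Icc 1 N).filter (fun a => a ∈ A e)).card : ℝ) * N) ?_) ?_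
        · intro e he
          rw [mem_filter, mem_Icc] at he
          apply mul_le_mul
          · have : ((Icc 1 N).filter (fun a : ℕ => (e : ℤ) ∣ F.eval (a : ℤ) ∧ a ∈ A e)).card ≤
                ((Icc 1 N).filter (fun a => a ∈ A e)).card := by
              apply card_le_card
              intro x hx
              rw [mem_filter] at hx ⊢
              exact ⟨hx.1, hx.2.2⟩
            exact_mod_cast this
          · apply div_le_self hN0.le
            exact_mod_cast he.1.1
          · positivity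
          · positivity
        · apply sum_le_sum_of_subset_of_nonneg
          · intro e he
            exact (mem_filter.1 he).2
          · intro e _ _
            positivity
      · have h6 := hs ((Finset.Icc 1 N).filter (fun e => e ∉ s)) (by
          rw [Finset.disjoint_left]
          intro e he
          exact (mem_filter.1 he).2)
        rw [Real.norm_eq_abs, abs_of_nonneg (sum_nonneg fun e _ => hw0 e)] at h6
        calc ∑ e ∈ (Finset.Icc 1 N).filter (fun e => e ∉ s),
            (((Icc 1 N).filter (fun a : ℕ => (e : ℤ) ∣ F.eval (a : ℤ) ∧ a ∈ A e)).card : ℝ) *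
              ((N : ℝ) / e) ≤ ∑ e ∈ (Finset.Icc 1 N).filter (fun e => e ∉ s), (N : ℝ) ^ 2 * w e := by
              apply sum_le_sum
              intro e he
              rw [mem_filter, mem_Icc] at he
              refine le_trans ?_ (hw e N he.1.1 he.1.2)
              apply mul_le_mul_of_nonneg_right _ (by positivity)
              have : ((Icc 1 N).filter (fun a : ℕ => (e : ℤ) ∣ F.eval (a : ℤ) ∧ a ∈ A e)).card ≤
                ((Icc 1 N).filter (fun x : ℕ => (e : ℤ) ∣ F.eval (x : ℤ))).card := by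
                apply card_le_card
                intro x hx
                rw [mem_filter] at hx ⊢
                exact ⟨hx.1, hx.2.1⟩
              exact_mod_cast this
          _ = (N : ℝ) ^ 2 * ∑ e ∈ (Finset.Icc 1 N).filter (fun e => e ∉ s), w e := by
              rw [mul_sum]
          _ ≤ _ := mul_le_mul_of_nonneg_left h6.le (by positivity)
    rw [← Finset.sum_div] at h3'
    generalize (∑ e ∈ s, (((Icc 1 N).filter (fun a => a ∈ A e)).card : ℝ)) = S at h3' h5
    generalize (∑ e ∈ Finset.Icc 1 N,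
        (((Icc 1 N).filter (fun a : ℕ => (e : ℤ) ∣ F.eval (a : ℤ) ∧ a ∈ A e)).card : ℝ) *
          ((N : ℝ) / e)) = S2 at h4 h5
    generalize ((I N).card : ℝ) = c0 at h4 ⊢
    have h7 : (a0 : ℝ) * N + S * N < ε / 4 * (N : ℝ) ^ 2 := by
      have h8 : (a0 : ℝ) * N + S * N = ((a0 : ℝ) / N + S / N) * (N : ℝ) ^ 2 := by
        field_simp
      rw [h8]
      exact mul_lt_mul_of_pos_right h3' (by positivity)
    have h9 : 0 < ε * (N : ℝ) ^ 2 := by positivity
    linarith
  -- conclusion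
  have h1 : Tendsto (fun N : ℕ => 1 - ((I N).card : ℝ) / (N : ℝ) ^ 2) atTop (𝓝 (1 - 0)) :=
    hlimI.const_sub 1
  rw [sub_zero] at h1
  refine h1.congr' ?_
  filter_upwards [eventually_ge_atTop 1] with N hN
  have hN0 : (0 : ℝ) < N := by exact_mod_cast hN
  have hset : {p : ℕ × ℕ | (1 ≤ p.1 ∧ p.1 ≤ N) ∧ (1 ≤ p.2 ∧ p.2 ≤ N) ∧ Visible F p.1 p.2} =
      ((V N : Finset (ℕ × ℕ)) : Set (ℕ × ℕ)) := by
    ext p
    rw [hV]
    simp only [Set.mem_ofPred_eq, coe_filter, mem_product, mem_Icc]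
    tauto
  rw [hset, Set.ncard_coe_finset]
  have h2 : ((V N).card : ℝ) + (I N).card = N * N := by exact_mod_cast hVI N
  rw [eq_div_iff (by positivity)]
  field_simp
  linarith

end Pool.Agent.Results.MP_543a09_nt.DensityOne
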